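import Pool.Agent.Work.MP_bce22b_lc.Bridge

/-!
In ZF, every compact Hausdorff, non-scattered, weakly Loeb space with a cuf base has at least
`|ℝ| = |𝒫(ω)|` points.  The statement is about an arbitrary model `(M, E)` of ZF.
-/

namespace Pool.Agent.Results.MP_bce22b_lc.CompactWeaklyLoebCuf

open Pool.Agent.Work.MP_bce22b_lc

universe u

theorem result {M : Type u} (E : M → M → Prop) (hZF : ZF E) (X T : M)
    (hT : IsTop E X T) (hcomp : Compact E X T) (hhaus : Hausdorff E X T)
    (hscat : ¬ Scattered E X T) (hloeb : WeaklyLoeb E X T) (hcuf : HasCufBase E T) :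
    ContinuumLE E X := by
  letI : SetStr M := ⟨E, X⟩
  haveI : ZFM M := zfm_of_ZF hZF
  have hT' : TopSp X T := TopSp_of_IsTop hT
  obtain ⟨f, hf⟩ := MCF_of_WeaklyLoeb hT' hloeb
  obtain ⟨F, hF⟩ := CufBase_of_HasCufBase hcuf
  exact ContinuumLE_of (main_internal hT' (Haus_of_Hausdorff hhaus) (Cpt_of_Compact hcomp) hF hf
    (NonScat_of_not_Scattered hscat))

end Pool.Agent.Results.MP_bce22b_lc.CompactWeaklyLoebCuf
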